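import Pool.Agent.Lib.MP_4a9e55_an.Main2
import Pool.Agent.Lib.MP_4a9e55_an.Ccc

/-!
An injective Banach space contains `ℓ¹ (κ)` for every `κ` below its dimension.
-/

set_option autoImplicit false

open Pool.Agent.Lib.MP_4a9e55_an

namespace Pool.Agent.Results.MP_4a9e55_an.Below

theorem result :
    ∀ (X : Type) [NormedAddCommGroup X] [NormedSpace ℝ X] [CompleteSpace X],
      Inj X →
      ¬ FiniteDimensional ℝ X →
      ∀ (ι : Type),
        Cardinal.mk ι < sInf {κ : Cardinal.{0} | ∃ s : Set X, Dense s ∧ Cardinal.mk s = κ} →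
        Emb (L1 ι) X := by
  intro X _ _ _ hX hinf ι hι
  exact l1_of_lt ccc hX hinf ι
    (hι.trans_le (csInf_le' ⟨Set.univ, dense_univ, Cardinal.mk_univ⟩))

end Pool.Agent.Results.MP_4a9e55_an.Below
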