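import Pool.Agent.Lib.MP_4a9e55_an.Main7

/-!
Rosenthal's conjecture in ZFC under a condition on the cofinality of the dimension that allows
every failure of the singular cardinals hypothesis and Cohen type failures of the continuum
hypothesis.
-/

set_option autoImplicit false

open Pool.Agent.Lib.MP_4a9e55_an

namespace Pool.Agent.Results.MP_4a9e55_an.PowHit

theorem result :
    ∀ (X : Type) [NormedAddCommGroup X] [NormedSpace ℝ X] [CompleteSpace X],
      Inj X →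
      ¬ FiniteDimensional ℝ X →
      ∀ (ι : Type),
        Cardinal.mk ι = sInf {κ : Cardinal.{0} | ∃ s : Set X, Dense s ∧ Cardinal.mk s = κ} →
        (∀ κ : Cardinal.{0}, κ.IsRegular → Cardinal.aleph 1 < κ → κ < (Cardinal.mk ι).ord.cof →
          (∀ δ < Cardinal.mk ι, ∀ σ < κ, δ ^ σ < Cardinal.mk ι) →
          (∀ Θ : Type, (Cardinal.mk Θ).IsRegular → Cardinal.mk Θ < κ → Emb (B Θ) X) →
          (∀ σ < κ, 2 ^ σ < (Cardinal.mk ι).ord.cof) ∨
          ∃ ν : Cardinal.{0}, ν.IsRegular ∧ κ = Order.succ ν ∧ Hit ν (Cardinal.mk ι).ord.cof) →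
        Emb (L1 ι) X ∧ Nonempty ((X →L[ℝ] ℝ) ≃L[ℝ] WW ι) := by
  intro X _ _ _ hX hinf ι hι H
  obtain ⟨s, hs, hs'⟩ := csInf_mem
    (s := {κ : Cardinal.{0} | ∃ s : Set X, Dense s ∧ Cardinal.mk s = κ})
    ⟨_, Set.univ, dense_univ, rfl⟩
  rw [← hι] at hs'
  have h0 := hs'.ge.trans (Cardinal.mk_set_le s)
  have h : Emb (L1 ι) X := l1_crit4 hX hinf ι h0 H
  exact ⟨h, dual_iso hX hinf ι hs hs' h⟩

end Pool.Agent.Results.MP_4a9e55_an.PowHit
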